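import Pool.Agent.Lib.MP_0775d3_lc.Ev.FacT
import Pool.Agent.Lib.MP_0775d3_lc.Ox.GFac

/-! Project EV: chains of subgroups of any length. -/

set_option linter.unusedSectionVars false
set_option linter.unusedVariables false

namespace MP0775d3.Ev

open MP0775d3.Ox

/-- Groups with a chain of subgroups down to the trivial group, of any length, each of index at most `b` or normal
of prime index in the one before. -/
inductive Ch (b : ℝ) : ∀ (G : Type) [Group G], Prop
  | one (G : Type) [Group G] : Subsingleton G → Ch b G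
  | step (G : Type) [Group G] (H : Subgroup G) :
      ((H.index : ℝ) ≤ b ∨ (H.Normal ∧ H.index.Prime)) → Ch b H → Ch b G

theorem Ch.mono {b b' : ℝ} (hb : b ≤ b') {G : Type} [Group G] (h : Ch b G) : Ch b' G := by
  induction h with
  | one G hs => exact Ch.one G hs
  | step G H h1 _ ih =>
    refine Ch.step G H ?_ ih
    rcases h1 with h1 | h1
    · exact Or.inl (h1.trans hb)
    · exact Or.inr h1

private theorem ch_congr {b : ℝ} {G : Type} [Group G] (h : Ch b G) :
    ∀ (G' : Type) [Group G'] (e : G ≃* G'), Ch b G' := by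
  induction h with
  | one G hs =>
    intro G' _ e
    exact Ch.one G' e.symm.toEquiv.subsingleton
  | step G H h1 _ ih =>
    intro G' _ e
    have h2 : Ch b (H.map e.toMonoidHom) := ih _ (e.subgroupMap H)
    have hi : (H.map e.toMonoidHom).index = H.index :=
      Subgroup.index_map_of_bijective e.bijective H
    refine Ch.step G' (H.map e.toMonoidHom) ?_ h2
    rw [hi]
    rcases h1 with h1 | ⟨h1, h3⟩
    · exact Or.inl h1
    · exact Or.inr ⟨h1.map e.toMonoidHom e.surjective, h3⟩

theorem Ch.congr {b : ℝ} {G G' : Type} [Group G] [Group G'] (e : G ≃* G') (h : Ch b G) :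
    Ch b G' := ch_congr h G' e

private theorem ch_top {b : ℝ} {G : Type} [Group G] {H : Subgroup G} (hH : H = ⊤)
    (h : Ch b H) : Ch b G := by
  rw [hH] at h
  exact h.congr Subgroup.topEquiv

/-- Extensions, and preimages. -/
theorem Ch.extend {b : ℝ} {Q : Type} [Group Q] (h : Ch b Q) : Finite Q → ∀ (G : Type) [Group G]
    (φ : G →* Q), Ch b φ.ker → Ch b G := by
  induction h with
  | one Q hs =>
    intro _ G _ φ hk
    refine ch_top ?_ hk
    ext g
    exact ⟨fun _ => Subgroup.mem_top g, fun _ => Subsingleton.elim _ _⟩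
  | step Q Y h1 _ ih =>
    intro hfQ G _ φ hker
    have hle : φ.ker ≤ Y.comap φ := by
      intro g hg
      rw [Subgroup.mem_comap, MonoidHom.mem_ker.1 hg]
      exact Y.one_mem
    have hk : (φ.subgroupComap Y).ker = φ.ker.subgroupOf (Y.comap φ) := by
      ext x
      rw [MonoidHom.mem_ker, Subgroup.mem_subgroupOf, MonoidHom.mem_ker]
      constructor
      · intro hx
        exact congrArg Subtype.val hx
      · intro hx
        exact Subtype.ext hx
    have h2 : Ch b (φ.subgroupComap Y).ker := by
      rw [hk]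
      exact hker.congr (Subgroup.subgroupOfEquivOfLe hle).symm
    have h3 : Ch b (Y.comap φ) := ih inferInstance _ (φ.subgroupComap Y) h2
    rcases h1 with h1 | ⟨h1, h4⟩
    · refine Ch.step G (Y.comap φ) (Or.inl (le_trans ?_ h1)) h3
      rw [Subgroup.index_comap, ← Subgroup.relIndex_top_right Y]
      refine Nat.cast_le.2 (Subgroup.relIndex_le_of_le_right le_top ?_)
      rw [Subgroup.relIndex_top_right]
      exact Subgroup.index_ne_zero_of_finite
    · have h5 : (Y.comap φ).index ∣ Y.index := by
        rw [Subgroup.index_comap]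
        exact Subgroup.relIndex_dvd_index_of_normal Y φ.range
      rcases (Nat.dvd_prime h4).1 h5 with h6 | h6
      · exact ch_top (Subgroup.index_eq_one.1 h6) h3
      · refine Ch.step G (Y.comap φ) (Or.inr ⟨h1.comap φ, ?_⟩) h3
        rw [h6]
        exact h4

/-- Subgroups. -/
theorem Ch.inj {b : ℝ} {G G' : Type} [Group G] [Group G'] [hf : Finite G'] (ι : G →* G')
    (hι : Function.Injective ι) (h : Ch b G') : Ch b G := by
  refine h.extend hf G ι (Ch.one _ ?_)
  rw [(MonoidHom.ker_eq_bot_iff ι).2 hι]
  infer_instance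

/-- Quotients. -/
theorem Ch.quot {b : ℝ} {G : Type} [Group G] (h : Ch b G) : Finite G → ∀ (Q : Type) [Group Q]
    (φ : G →* Q), Function.Surjective φ → Ch b Q := by
  induction h with
  | one G hs =>
    intro _ Q _ φ hφ
    exact Ch.one Q hφ.subsingleton
  | step G H h1 _ ih =>
    intro hf Q _ φ hφ
    have h2 : Ch b (H.map φ) := ih inferInstance _ (φ.subgroupMap H) (φ.subgroupMap_surjective H)
    have h3 : (H.map φ).index ∣ H.index := Subgroup.index_map_dvd H hφ
    rcases h1 with h1 | ⟨h1, h4⟩
    · refine Ch.step Q (H.map φ) (Or.inl (le_trans ?_ h1)) h2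
      exact Nat.cast_le.2 (Nat.le_of_dvd
        (Nat.pos_of_ne_zero Subgroup.index_ne_zero_of_finite) h3)
    · rcases (Nat.dvd_prime h4).1 h3 with h6 | h6
      · exact ch_top (Subgroup.index_eq_one.1 h6) h2
      · refine Ch.step Q (H.map φ) (Or.inr ⟨h1.map φ hφ, ?_⟩) h2
        rw [h6]
        exact h4

/-- Small groups. -/
theorem ch_small {b : ℝ} {G : Type} [Group G] (h : (Nat.card G : ℝ) ≤ b) : Ch b G := by
  refine Ch.step G ⊥ (Or.inl ?_) (Ch.one _ inferInstance)
  rwa [Subgroup.index_bot]

/-- Groups of permutations. -/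
private theorem ch_act {b : ℝ} {X : Type} [Finite X] (hX : (Nat.card X : ℝ) ≤ b) (n : ℕ) :
    ∀ (G : Type) [Group G] [MulAction G X] [FaithfulSMul G X],
      ({x | ∃ g : G, g • x ≠ x} : Set X).ncard ≤ n → Ch b G := by
  induction n with
  | zero =>
    intro G _ _ _ hn
    refine Ch.one G ⟨fun g h => ?_⟩
    have h1 : ({x | ∃ g : G, g • x ≠ x} : Set X) = ∅ :=
      (Set.ncard_eq_zero (Set.toFinite _)).1 (Nat.le_zero.1 hn)
    have h2 : ∀ (g : G) (x : X), g • x = x := by
      intro g x
      by_contra hx
      have h3 : x ∈ ({x | ∃ g : G, g • x ≠ x} : Set X) := ⟨g, hx⟩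
      rw [h1] at h3
      exact h3
    exact FaithfulSMul.eq_of_smul_eq_smul fun x : X => (h2 g x).trans (h2 h x).symm
  | succ n ih =>
    intro G _ _ _ hn
    by_cases hx : ∃ (x : X) (g : G), g • x ≠ x
    · obtain ⟨x, g, hg⟩ := hx
      refine Ch.step G (MulAction.stabilizer G x) (Or.inl ?_) (ih _ ?_)
      · rw [MulAction.index_stabilizer]
        exact le_trans (Nat.cast_le.2 (Set.ncard_le_card _)) hX
      · have h1 : ({y | ∃ g : MulAction.stabilizer G x, g • y ≠ y} : Set X) ⊂
            {y | ∃ g : G, g • y ≠ y} := by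
          refine ⟨?_, fun h => ?_⟩
          · rintro y ⟨g, hy⟩
            exact ⟨g, hy⟩
          · obtain ⟨g', hg'⟩ := h (show x ∈ ({y | ∃ g : G, g • y ≠ y} : Set X) from ⟨g, hg⟩)
            exact hg' g'.2
        exact Nat.lt_succ_iff.1 ((Set.ncard_lt_ncard h1 (Set.toFinite _)).trans_le hn)
    · refine ih G ?_
      have h1 : ({x | ∃ g : G, g • x ≠ x} : Set X) = ∅ := by
        refine Set.eq_empty_of_forall_notMem ?_
        rintro x ⟨g, hg⟩
        exact hx ⟨x, g, hg⟩
      rw [h1, Set.ncard_empty]
      exact Nat.zero_le n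

/-- Groups of permutations of at most `b` points. -/
theorem ch_perm {b : ℝ} {X : Type} [Finite X] (hX : (Nat.card X : ℝ) ≤ b) {G : Type} [Group G]
    (φ : G →* Equiv.Perm X) (hφ : Function.Injective φ) : Ch b G :=
  Ch.inj φ hφ (ch_act hX _ (Equiv.Perm X) le_rfl)

theorem ch_fac0 {b : ℝ} {G : Type} [Group G] (h : Fac0 b G) : Ch b G := by
  induction h with
  | one G hs => exact Ch.one G hs
  | ext G N hN _ h3 ih =>
    refine Ch.step G N ?_ ih
    rcases h3 with h3 | h3
    · exact Or.inl h3
    · exact Or.inr ⟨hN, h3⟩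

/-- Solvable groups. -/
theorem ch_solvable (b : ℝ) (G : Type) [Group G] [Finite G] [Group.IsSolvable G] : Ch b G :=
  ch_fac0 (fac0_solvable b G)

/-- Coarse graining. PROOF. Induction on `k`, inside of it induction on `Ch b G` (for all `G'`). -/
theorem ch_tc {b : ℝ} (hb : 1 ≤ b) (k : ℕ) : ∀ (G : Type) [Group G], Ch b G →
    ∀ (G' : Type) [Group G'] [Finite G'] (ι : G →* G'), Function.Injective ι →
      (ι.range.index : ℝ) ≤ b → (Nat.card G' : ℝ) ≤ b ^ k → Tc (b ^ 2) (2 * k) G' := by
  have hbb : b ≤ b ^ 2 := by nlinarith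
  induction k with
  | zero =>
    intro G _ _ G' _ _ ι _ _ hG
    change (Nat.card G' : ℝ) ≤ b ^ 2
    rw [pow_zero] at hG
    linarith
  | succ k ihk =>
    intro G _ hF
    induction hF with
    | one G hG =>
      intro G' _ _ ι hι hi hc
      have h1 : ι.range = ⊥ := by
        rw [MonoidHom.range_eq_bot_iff]
        ext g
        rw [Subsingleton.elim g 1, map_one, map_one]
      rw [h1, Subgroup.index_bot] at hi
      have h2 : Tc (b ^ 2) 0 G' := hi.trans hbb
      exact h2.mono (by omega)
    | step G N hcase hFN ih =>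
      intro G' _ _ ι hι hi hc
      have hfG : Finite G := Finite.of_injective ι hι
      have hιN : Function.Injective (ι.comp N.subtype) := hι.comp N.subtype_injective
      rcases le_or_gt (((ι.comp N.subtype).range.index : ℕ) : ℝ) b with hs | hs
      · exact ih G' (ι.comp N.subtype) hιN hs hc
      · have hcN : (Nat.card N : ℝ) ≤ b ^ k := by
          have h1 : (Nat.card (ι.comp N.subtype).range : ℝ) *
              ((ι.comp N.subtype).range.index : ℝ) = Nat.card G' := by
            exact_mod_cast Subgroup.card_mul_index (ι.comp N.subtype).range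
          have h2 : Nat.card (ι.comp N.subtype).range = Nat.card N :=
            (Nat.card_congr (MonoidHom.ofInjective hιN).toEquiv).symm
          rw [h2] at h1
          have h3 : (Nat.card N : ℝ) * b ≤ b ^ k * b := by
            calc (Nat.card N : ℝ) * b ≤ Nat.card N * ((ι.comp N.subtype).range.index : ℝ) :=
                  mul_le_mul_of_nonneg_left hs.le (Nat.cast_nonneg _)
              _ = Nat.card G' := h1
              _ ≤ b ^ k * b := by
                rw [← pow_succ]
                exact hc
          exact le_of_mul_le_mul_right h3 (by linarith)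
        have hTN : Tc (b ^ 2) (2 * k) N := by
          refine ihk N hFN N (MonoidHom.id N) Function.injective_id ?_ hcN
          have h1 : (MonoidHom.id N).range = ⊤ := MonoidHom.range_eq_top.2 Function.surjective_id
          rw [h1, Subgroup.index_top, Nat.cast_one]
          exact hb
        have hib : (ι.range.index : ℝ) ≤ b ^ 2 := hi.trans hbb
        rcases hcase with h1 | ⟨h0, h1⟩
        · have h2 : ((ι.comp N.subtype).range.index : ℝ) ≤ b ^ 2 := by
            have h3 : (ι.comp N.subtype).range = N.map ι := by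
              rw [MonoidHom.range_comp, Subgroup.range_subtype]
            have h4 : N ⊔ ι.ker = N := by
              rw [(MonoidHom.ker_eq_bot_iff ι).2 hι, sup_bot_eq]
            rw [h3, Subgroup.index_map, h4]
            push_cast
            calc (N.index : ℝ) * ι.range.index ≤ b * b :=
                  mul_le_mul h1 hi (Nat.cast_nonneg _) (by linarith)
              _ = b ^ 2 := (sq b).symm
          exact (Tc.index (ι.comp N.subtype) hιN h2 hTN).mono (by omega)
        · have h2 : Tc (b ^ 2) (2 * k + 1) G := by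
            unfold Tc
            exact Or.inr (Or.inr ⟨N, h0, h1, hTN⟩)
          exact (Tc.index ι hι hib h2).mono (by omega)

/-- A chain `G = H 0 ≥ H 1 ≥ ... ≥ H k = 1` of subgroups, of any length, each of them of index at most `b` or normal of
prime index in the one before. -/
def HasChain (b : ℝ) (G : Type) [Group G] : Prop :=
  ∃ (k : ℕ) (H : ℕ → Subgroup G), H 0 = ⊤ ∧ H k = ⊥ ∧ ∀ i < k, H (i + 1) ≤ H i ∧
    (((H (i + 1)).relIndex (H i) : ℝ) ≤ b ∨
      (((H (i + 1)).subgroupOf (H i)).Normal ∧ ((H (i + 1)).relIndex (H i)).Prime))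

theorem HasChain.ch {b : ℝ} {G : Type} [Group G] (h : HasChain b G) : Ch b G := by
  obtain ⟨k, H, h0, hk, h⟩ := h
  have h1 : ∀ j ≤ k, Ch b (H (k - j)) := by
    intro j
    induction j with
    | zero =>
      intro _
      rw [Nat.sub_zero, hk]
      exact Ch.one _ inferInstance
    | succ j ih =>
      intro hj
      have h2 := ih (by omega)
      obtain ⟨h3, h4⟩ := h (k - (j + 1)) (by omega)
      have e : k - (j + 1) + 1 = k - j := by omega
      rw [e] at h3 h4
      exact Ch.step _ ((H (k - j)).subgroupOf (H (k - (j + 1)))) h4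
        (h2.congr (Subgroup.subgroupOfEquivOfLe h3).symm)
  have h2 := h1 k le_rfl
  rw [Nat.sub_self] at h2
  exact ch_top h0 h2

theorem Ch.hasChain {b : ℝ} {G : Type} [Group G] (h : Ch b G) : HasChain b G := by
  induction h with
  | one G hs =>
    refine ⟨0, fun _ => ⊤, rfl, ?_, fun i hi => absurd hi (Nat.not_lt_zero i)⟩
    exact Subsingleton.elim _ _
  | step G N h1 _ ih =>
    obtain ⟨k, H, h0, hk, h⟩ := ih
    refine ⟨k + 1, fun i => Nat.casesOn i ⊤ fun j => (H j).map N.subtype, rfl, ?_, ?_⟩
    · change (H k).map N.subtype = ⊥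
      rw [hk, Subgroup.map_bot]
    · intro i hi
      cases i with
      | zero =>
        change (H 0).map N.subtype ≤ ⊤ ∧ ((((H 0).map N.subtype).relIndex ⊤ : ℝ) ≤ b ∨
          ((((H 0).map N.subtype).subgroupOf ⊤).Normal ∧
            (((H 0).map N.subtype).relIndex ⊤).Prime))
        have e : (H 0).map N.subtype = N := by
          rw [h0, ← MonoidHom.range_eq_map, Subgroup.range_subtype]
        rw [e, Subgroup.relIndex_top_right]
        refine ⟨le_top, ?_⟩
        rcases h1 with h1 | ⟨h1, h2⟩
        · exact Or.inl h1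
        · exact Or.inr ⟨h1.subgroupOf ⊤, h2⟩
      | succ j =>
        change (H (j + 1)).map N.subtype ≤ (H j).map N.subtype ∧
          ((((H (j + 1)).map N.subtype).relIndex ((H j).map N.subtype) : ℝ) ≤ b ∨
          ((((H (j + 1)).map N.subtype).subgroupOf ((H j).map N.subtype)).Normal ∧
            (((H (j + 1)).map N.subtype).relIndex ((H j).map N.subtype)).Prime))
        obtain ⟨h3, h4⟩ := h j (by omega)
        have e : ((H (j + 1)).map N.subtype).relIndex ((H j).map N.subtype) =
            (H (j + 1)).relIndex (H j) :=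
          Subgroup.relIndex_map_map_of_injective _ _ N.subtype_injective
        rw [e]
        refine ⟨Subgroup.map_mono h3, ?_⟩
        rcases h4 with h4 | ⟨h4, h5⟩
        · exact Or.inl h4
        · refine Or.inr ⟨?_, h5⟩
          rw [Subgroup.normal_subgroupOf_iff (Subgroup.map_mono h3)]
          rw [Subgroup.normal_subgroupOf_iff h3] at h4
          rintro _ _ ⟨x, hx, rfl⟩ ⟨y, hy, rfl⟩
          exact ⟨y * x * y⁻¹, h4 x y hx hy, by simp⟩

end MP0775d3.Ev
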