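import Pool.Agent.Lib.MP_0775d3_lc.Ev.Defs
import Pool.Agent.Lib.MP_0775d3_lc.Ox.LIndex
import Pool.Agent.Lib.MP_0775d3_lc.Ox.LPr
import Pool.Agent.Lib.MP_0775d3_lc.Cf.FbB

/-! Project EV: induction on the level. -/

set_option linter.unusedSectionVars false
set_option linter.unusedVariables false

namespace MP0775d3.Ev

open Matrix MP0775d3.Cf MP0775d3.Ox

/-- The depth. -/
def tauE (t₁ : ℕ) : ℕ → ℕ
  | 0 => 1
  | l + 1 => tauE t₁ l + t₁ + 3

theorem tauE_pos (t₁ l : ℕ) : 1 ≤ tauE t₁ l := by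
  cases l with
  | zero => exact le_rfl
  | succ l =>
    change 1 ≤ tauE t₁ l + t₁ + 3
    omega

/-- Only the steps with a subgroup of small index and with a normal subgroup of prime index: all blocks have size
at most `b * L`. -/
theorem core {K b N s L : ℝ} {t₁ : ℕ} (hK : 1 ≤ K) (hb : 1 ≤ b) (hL : 1 ≤ L)
    (hbL : b * L ≤ s) (ht₁ : 1 ≤ t₁) (hFP : FP K N s t₁) (l : ℕ) :
    ∀ (G : Type) [Group G] [Finite G], (Nat.card G : ℝ) ≤ N → Tc b l G →
      FL (K * Nat.card G) s (tauE t₁ l) L G := by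
  have hbs : b ≤ s := (le_mul_of_one_le_right (by linarith) hL).trans hbL
  have hs : 1 ≤ s := hb.trans hbs
  have hLs : L ≤ s := (le_mul_of_one_le_left (by linarith) hb).trans hbL
  induction l with
  | zero =>
    intro G _ _ hG hT
    have hT' : (Nat.card G : ℝ) ≤ b := hT
    refine (FS.low L (fs_small hb hT')).mono ?_ hbs le_rfl hs
    exact le_mul_of_one_le_left (Nat.cast_nonneg _) hK
  | succ l ih =>
    intro G _ _ hG hT
    have hτ := tauE_pos t₁ l
    have hsub : ∀ H : Subgroup G, (Nat.card H : ℝ) ≤ N := by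
      intro H
      refine le_trans ?_ hG
      exact_mod_cast Subgroup.card_le_card_group H
    change FL (K * Nat.card G) s (tauE t₁ l + t₁ + 3) L G
    unfold Tc at hT
    rcases hT with h | ⟨H, h1, h2⟩ | ⟨H, h1, h2, h3⟩
    · exact (ih G hG h).mono le_rfl le_rfl (by omega) hs
    · exact (step_index_low hK hs hbL hτ H h1 (ih H (hsub H) h2)).mono le_rfl le_rfl
        (by omega) hs
    · exact (step_prime_low hK hL hLs hτ ht₁ hFP hG H h1 h2 (ih H (hsub H) h3)).mono le_rfl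
        le_rfl (by omega) hs

/-- With the Fourier transforms of the groups of prime order. -/
theorem ev_fl (η : ℝ) (hη : 0 < η) (l : ℕ) : ∃ t : ℕ, 1 ≤ t ∧ ∃ C : ℝ, 1 ≤ C ∧ ∀ N : ℝ, 1 ≤ N →
    ∀ L : ℝ, 1 ≤ L → ∀ (G : Type) [Group G] [Finite G], (Nat.card G : ℝ) ≤ N → Tc (N ^ η) l G →
      FL (C * Nat.card G) (C * (L * N ^ η)) t L G := by
  obtain ⟨t₁, ht₁, C, hC, h2⟩ := fb_abelian η hη
  refine ⟨tauE t₁ l, tauE_pos t₁ l, C, hC, fun N hN L hL G _ _ hG hT => ?_⟩
  have hN0 : 0 < N := by linarith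
  have hNη : (1 : ℝ) ≤ N ^ η := Real.one_le_rpow hN hη.le
  have hLN : N ^ η ≤ L * N ^ η := le_mul_of_one_le_left (by linarith) hL
  refine core hC hNη hL ?_ ht₁ ?_ l G hG hT
  · rw [mul_comm (N ^ η) L]
    exact le_mul_of_one_le_left (by linarith) hC
  · intro p hp hpN
    have : NeZero p := ⟨hp.ne_zero⟩
    have hcard : Nat.card (Multiplicative (ZMod p)) = p :=
      (Nat.card_congr Multiplicative.toAdd).trans (Nat.card_zmod p)
    have h3 := h2 N hN (Multiplicative (ZMod p)) (fun a b => mul_comm a b)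
      (by rw [hcard]; exact hpN)
    rw [hcard] at h3
    have h1 : (1 : ℝ) ≤ C * (L * N ^ η) := by
      have h4 : (1 : ℝ) * 1 ≤ C * (L * N ^ η) :=
        mul_le_mul hC (hNη.trans hLN) zero_le_one (by linarith)
      linarith
    exact h3.mono le_rfl (mul_le_mul_of_nonneg_left hLN (by linarith)) le_rfl h1

end MP0775d3.Ev
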