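import Pool.Agent.Lib.MP_0775d3_lc.Ox.FacDefs
import Pool.Agent.Lib.MP_0775d3_lc.Ox.LDefs

/-! Project EV: group circulants with arbitrary functions, without any assumption on `ω`. Definitions. -/

set_option linter.unusedSectionVars false
set_option linter.unusedVariables false

namespace MP0775d3.Ev

open Matrix

/-- Chains of subgroups: groups of order at most `b`; groups with a subgroup of index at most `b`, or with a
normal subgroup of prime index, of lower level. -/
def Tc (b : ℝ) : ℕ → ∀ (G : Type) [Group G], Prop
  | 0, G, _ => (Nat.card G : ℝ) ≤ b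
  | l + 1, G, _ => Tc b l G ∨ (∃ H : Subgroup G, (H.index : ℝ) ≤ b ∧ Tc b l H) ∨
      ∃ H : Subgroup G, H.Normal ∧ H.index.Prime ∧ Tc b l H

/-- The sum of `d ^ 2` over the degrees `d` of the irreducible representations of `G` with `d > L` is at most `m`:
in every isomorphism of the group algebra with a product of matrix algebras, the blocks of size more than `L`
have total dimension at most `m`. -/
def HighMass (G : Type) [Group G] (L m : ℝ) : Prop :=
  ∀ (k : ℕ) (d : Fin k → ℕ),
    Nonempty (MonoidAlgebra ℂ G ≃ₐ[ℂ] ∀ i, Matrix (Fin (d i)) (Fin (d i)) ℂ) →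
      ∑ i, (if L < (d i : ℝ) then ((d i : ℝ)) ^ 2 else 0) ≤ m

end MP0775d3.Ev
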