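import Pool.Agent.Lib.MP_0775d3_lc.Ev.Defs
import Pool.Agent.Lib.MP_0775d3_lc.Ox.Mass

/-! Project EV: the degrees of a system of representations. -/

set_option linter.unusedSectionVars false
set_option linter.unusedVariables false

namespace MP0775d3.Ev

open Matrix MP0775d3.Ox

/-- The sum over the degrees more than `L` of any system of representations. -/
theorem HighMass.sys {G : Type} [Group G] [Finite G] {L m : ℝ} (hL : 0 ≤ L) (h : HighMass G L m)
    (S : Sys G) : ∑ i, (if (Fintype.card (S.D i) : ℝ) ≤ L then 0 else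
      (Fintype.card (S.D i) * Fintype.card (S.D i) : ℝ)) ≤ m := by
  have key : ∀ d : ℕ, ((⌊L⌋₊ + 1 : ℕ) : ℝ) ≤ (d : ℝ) ↔ L < (d : ℝ) := by
    intro d
    rw [Nat.cast_le, ← Nat.floor_lt hL]
    exact Iff.rfl
  obtain ⟨k, d, Φ, h1⟩ := S.mass ((⌊L⌋₊ + 1 : ℕ) : ℝ)
  have h2 := h k d ⟨Φ⟩
  refine le_trans (le_of_eq ?_) (h1.trans (le_trans (le_of_eq ?_) h2))
  · refine Finset.sum_congr rfl fun i _ => ?_
    by_cases hi : (Fintype.card (S.D i) : ℝ) ≤ L
    · rw [if_pos hi, if_neg (fun h3 => absurd ((key _).1 h3) (not_lt.2 hi))]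
    · rw [if_neg hi, if_pos ((key _).2 (not_le.1 hi)), sq]
  · refine Finset.sum_congr rfl fun i _ => ?_
    by_cases hi : L < (d i : ℝ)
    · rw [if_pos hi, if_pos ((key _).2 hi)]
    · rw [if_neg hi, if_neg (fun h3 => hi ((key _).1 h3))]

theorem HighMass.nonneg {G : Type} [Group G] [Finite G] {L m : ℝ} (h : HighMass G L m) : 0 ≤ m := by
  obtain ⟨S⟩ := exists_sys G
  obtain ⟨k, d, Φ, -⟩ := S.mass 0
  refine le_trans ?_ (h k d ⟨Φ⟩)
  refine Finset.sum_nonneg fun i _ => ?_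
  split_ifs
  · positivity
  · exact le_rfl

/-- If all blocks have size at most `L`, nothing is lost. -/
theorem highMass_zero {G : Type} [Group G] {L : ℝ}
    (h : ∀ (k : ℕ) (d : Fin k → ℕ),
      Nonempty (MonoidAlgebra ℂ G ≃ₐ[ℂ] ∀ i, Matrix (Fin (d i)) (Fin (d i)) ℂ) →
        ∀ i, (d i : ℝ) ≤ L) : HighMass G L 0 := by
  intro k d hΦ
  refine le_of_eq (Finset.sum_eq_zero fun i _ => ?_)
  rw [if_neg (not_lt.2 (h k d hΦ i))]

end MP0775d3.Ev
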