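import Pool.Agent.Lib.MP_0775d3_lc.Ev.Defs
import Pool.Agent.Lib.MP_0775d3_lc.Ox.FacD

/-! Project EV: from composition factors to chains of subgroups. -/

set_option linter.unusedSectionVars false
set_option linter.unusedVariables false

namespace MP0775d3.Ev

open MP0775d3.Ox

private theorem facT_idx {Q Q' : Type} [Group Q] [Group Q'] [Finite Q'] (ι : Q →* Q')
    (Y : Subgroup Q') : (Y.comap ι).index ≤ Y.index := by
  rw [Subgroup.index_comap, ← Subgroup.relIndex_top_right Y]
  refine Subgroup.relIndex_le_of_le_right le_top ?_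
  rw [Subgroup.relIndex_top_right]
  exact Subgroup.index_ne_zero_of_finite

theorem Tc.congr {b : ℝ} {l : ℕ} {G G' : Type} [Group G] [Group G'] (e : G ≃* G')
    (h : Tc b l G) : Tc b l G' := by
  induction l generalizing G G' with
  | zero =>
    have h1 : (Nat.card G : ℝ) ≤ b := h
    change (Nat.card G' : ℝ) ≤ b
    rwa [← Nat.card_congr e.toEquiv]
  | succ l ih =>
    unfold Tc at h ⊢
    rcases h with h | ⟨H, h1, h2⟩ | ⟨H, h1, h2, h3⟩
    · exact Or.inl (ih e h)
    · refine Or.inr (Or.inl ⟨H.map (e : G →* G'), ?_, ih (e.subgroupMap H) h2⟩)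
      rw [Subgroup.index_map_equiv]
      exact h1
    · refine Or.inr (Or.inr ⟨H.map (e : G →* G'), h1.map _ e.surjective, ?_,
        ih (e.subgroupMap H) h3⟩)
      rw [Subgroup.index_map_equiv]
      exact h2

theorem Tc.mono {b : ℝ} {l l' : ℕ} (hl : l ≤ l') {G : Type} [Group G] (h : Tc b l G) :
    Tc b l' G := by
  induction l', hl using Nat.le_induction with
  | base => exact h
  | succ n _ ih =>
    unfold Tc
    exact Or.inl ih

theorem Tc.index {b : ℝ} {l : ℕ} {G G' : Type} [Group G] [Group G'] (ι : G →* G')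
    (hι : Function.Injective ι) (hi : (ι.range.index : ℝ) ≤ b) (h : Tc b l G) :
    Tc b (l + 1) G' := by
  unfold Tc
  exact Or.inr (Or.inl ⟨ι.range, hi, h.congr (MonoidHom.ofInjective hι)⟩)

private theorem facT_chain_mono {b b' : ℝ} (hb : b ≤ b') {r : ℕ} {Q : Type} [Group Q]
    (h : Chain b r Q) : Chain b' r Q := by
  induction r generalizing Q with
  | zero => exact h
  | succ r ih =>
    obtain ⟨Y, hY, hC⟩ := h
    exact ⟨Y, hY.trans hb, ih hC⟩

private theorem facT_chain {b : ℝ} {r l : ℕ} {G Q : Type} [Group G] [Group Q] [Finite Q]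
    (φ : G →* Q) (h : Chain b r Q) (hl : Tc b l φ.ker) : Tc b (l + r) G := by
  induction r generalizing G Q with
  | zero =>
    have h1 : Subsingleton Q := h
    have h2 : φ.ker = ⊤ := by
      ext g
      exact ⟨fun _ => Subgroup.mem_top g, fun _ => Subsingleton.elim _ _⟩
    rw [h2] at hl
    exact hl.congr Subgroup.topEquiv
  | succ r ih =>
    obtain ⟨Y, hY, hC⟩ := h
    have hle : φ.ker ≤ Y.comap φ := by
      intro g hg
      rw [Subgroup.mem_comap, MonoidHom.mem_ker.1 hg]
      exact Y.one_mem
    have hk : (φ.subgroupComap Y).ker = φ.ker.subgroupOf (Y.comap φ) := by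
      ext x
      rw [MonoidHom.mem_ker, Subgroup.mem_subgroupOf, MonoidHom.mem_ker]
      constructor
      · intro hx
        exact congrArg Subtype.val hx
      · intro hx
        exact Subtype.ext hx
    have h1 : Tc b l (φ.subgroupComap Y).ker := by
      rw [hk]
      exact hl.congr (Subgroup.subgroupOfEquivOfLe hle).symm
    have h2 : Tc b (l + r) (Y.comap φ) := ih (φ.subgroupComap Y) hC h1
    change Tc b (l + r + 1) G
    unfold Tc
    refine Or.inr (Or.inl ⟨Y.comap φ, le_trans ?_ hY, h2⟩)
    exact_mod_cast facT_idx φ Y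

/-- PROOF. Induction on `k`, inside of it induction on `Fac b G` (for all `G'`). -/
theorem fac_mainT (k : ℕ) : ∃ (L : ℕ) (B₀ : ℝ), 1 ≤ B₀ ∧ ∀ b : ℝ, B₀ ≤ b → ∀ (G : Type) [Group G],
    Fac b G → ∀ (G' : Type) [Group G'] [Finite G'] (ι : G →* G'), Function.Injective ι →
      (ι.range.index : ℝ) ≤ b → (Nat.card G' : ℝ) ≤ b ^ k → Tc (b ^ 2) L G' := by
  induction k with
  | zero =>
    refine ⟨0, 1, le_rfl, fun b hb G _ _ G' _ _ ι _ _ hG => ?_⟩
    change (Nat.card G' : ℝ) ≤ b ^ 2
    rw [pow_zero] at hG
    nlinarith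
  | succ k ihk =>
    obtain ⟨L, B₀, hB₀, ihk⟩ := ihk
    obtain ⟨r, B₁, hB₁, halt⟩ := alt_chain (k + 1)
    refine ⟨L + r + 3, max B₀ B₁, hB₀.trans (le_max_left _ _), fun b hb G _ hF => ?_⟩
    have hb0 : B₀ ≤ b := (le_max_left _ _).trans hb
    have hb1 : B₁ ≤ b := (le_max_right _ _).trans hb
    have hb2 : 1 ≤ b := hB₀.trans hb0
    have hbb : b ≤ b ^ 2 := by nlinarith
    induction hF with
    | one G hG =>
      intro G' _ _ ι hι hi hc
      have h1 : ι.range = ⊥ := by
        rw [MonoidHom.range_eq_bot_iff]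
        ext g
        rw [Subsingleton.elim g 1, map_one, map_one]
      rw [h1, Subgroup.index_bot] at hi
      have h2 : Tc (b ^ 2) 0 G' := hi.trans hbb
      exact h2.mono (by omega)
    | ext G N hN hFN hcase ih =>
      intro G' _ _ ι hι hi hc
      have hfG : Finite G := Finite.of_injective ι hι
      have hιN : Function.Injective (ι.comp N.subtype) := hι.comp N.subtype_injective
      rcases le_or_gt (((ι.comp N.subtype).range.index : ℕ) : ℝ) b with hs | hs
      · exact ih G' (ι.comp N.subtype) hιN hs hc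
      · have hcN : (Nat.card N : ℝ) ≤ b ^ k := by
          have h1 : (Nat.card (ι.comp N.subtype).range : ℝ) *
              ((ι.comp N.subtype).range.index : ℝ) = Nat.card G' := by
            exact_mod_cast Subgroup.card_mul_index (ι.comp N.subtype).range
          have h2 : Nat.card (ι.comp N.subtype).range = Nat.card N :=
            (Nat.card_congr (MonoidHom.ofInjective hιN).toEquiv).symm
          rw [h2] at h1
          have h3 : (Nat.card N : ℝ) * b ≤ b ^ k * b := by
            calc (Nat.card N : ℝ) * b ≤ Nat.card N * ((ι.comp N.subtype).range.index : ℝ) :=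
                  mul_le_mul_of_nonneg_left hs.le (Nat.cast_nonneg _)
              _ = Nat.card G' := h1
              _ ≤ b ^ k * b := by
                rw [← pow_succ]
                exact hc
          exact le_of_mul_le_mul_right h3 (by linarith)
        have hTN : Tc (b ^ 2) L N := by
          refine ihk b hb0 N hFN N (MonoidHom.id N) Function.injective_id ?_ hcN
          have h1 : (MonoidHom.id N).range = ⊤ := MonoidHom.range_eq_top.2 Function.surjective_id
          rw [h1, Subgroup.index_top, Nat.cast_one]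
          exact hb2
        have hib : (ι.range.index : ℝ) ≤ b ^ 2 := hi.trans hbb
        rcases hcase with h1 | h1 | ⟨m, φ, hφ, hker⟩
        · have h2 : ((ι.comp N.subtype).range.index : ℝ) ≤ b ^ 2 := by
            have h3 : (ι.comp N.subtype).range = N.map ι := by
              rw [MonoidHom.range_comp, Subgroup.range_subtype]
            have h4 : N ⊔ ι.ker = N := by
              rw [(MonoidHom.ker_eq_bot_iff ι).2 hι, sup_bot_eq]
            rw [h3, Subgroup.index_map, h4]
            push_cast
            calc (N.index : ℝ) * ι.range.index ≤ b * b :=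
                  mul_le_mul h1 hi (Nat.cast_nonneg _) (by linarith)
              _ = b ^ 2 := (sq b).symm
          exact (Tc.index (ι.comp N.subtype) hιN h2 hTN).mono (by omega)
        · have h2 : Tc (b ^ 2) (L + 1) G := by
            unfold Tc
            exact Or.inr (Or.inr ⟨N, hN, h1, hTN⟩)
          exact (Tc.index ι hι hib h2).mono (by omega)
        · have h2 : (Nat.card (alternatingGroup (Fin m)) : ℝ) ≤ b ^ (k + 1) := by
            refine le_trans ?_ hc
            have h3 : Nat.card (alternatingGroup (Fin m)) ≤ Nat.card G :=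
              Nat.card_le_card_of_surjective φ hφ
            have h4 : Nat.card G ≤ Nat.card G' := Nat.card_le_card_of_injective ι hι
            exact_mod_cast h3.trans h4
          have h5 : Chain (b ^ 2) r (alternatingGroup (Fin m)) :=
            facT_chain_mono hbb (halt b hb1 m h2)
          have h6 : Tc (b ^ 2) L φ.ker := by
            rw [hker]
            exact hTN
          exact (Tc.index ι hι hib (facT_chain φ h5 h6)).mono (by omega)

/-- PROOF. `fac_mainT` with `k = ⌈2 / δ⌉₊`, `b = |G| ^ (δ / 2)`. -/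
theorem fac_tc (δ : ℝ) (hδ : 0 < δ) : ∃ (L n₀ : ℕ), ∀ (G : Type) [Group G] [Fintype G],
    n₀ ≤ Fintype.card G → Fac ((Fintype.card G : ℝ) ^ (δ / 2)) G →
      Tc ((Fintype.card G : ℝ) ^ δ) L G := by
  obtain ⟨L, B₀, hB₀, h⟩ := fac_mainT ⌈2 / δ⌉₊
  have h1 : Filter.Tendsto (fun n : ℕ => (n : ℝ) ^ (δ / 2)) Filter.atTop Filter.atTop :=
    (tendsto_rpow_atTop (by positivity)).comp tendsto_natCast_atTop_atTop
  obtain ⟨n₀, hn₀⟩ := Filter.eventually_atTop.1 (Filter.tendsto_atTop.1 h1 B₀)
  refine ⟨L, max n₀ 1, fun G _ _ hn hF => ?_⟩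
  have hn1 : (1 : ℝ) ≤ Fintype.card G := by
    exact_mod_cast (le_max_right n₀ 1).trans hn
  have hn0 : (0 : ℝ) < Fintype.card G := by linarith
  have h2 := h _ (hn₀ _ ((le_max_left _ _).trans hn)) G hF G (MonoidHom.id G)
    Function.injective_id ?_ ?_
  · have e : ((Fintype.card G : ℝ) ^ (δ / 2)) ^ 2 = (Fintype.card G : ℝ) ^ δ := by
      rw [← Real.rpow_natCast, ← Real.rpow_mul hn0.le]
      congr 1
      push_cast
      ring
    rwa [e] at h2
  · have h3 : (MonoidHom.id G).range = ⊤ := MonoidHom.range_eq_top.2 Function.surjective_id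
    rw [h3, Subgroup.index_top, Nat.cast_one]
    exact Real.one_le_rpow hn1 (by positivity)
  · rw [Nat.card_eq_fintype_card, ← Real.rpow_natCast, ← Real.rpow_mul hn0.le]
    have h4 : (1 : ℝ) ≤ δ / 2 * (⌈2 / δ⌉₊ : ℕ) := by
      have h5 := Nat.le_ceil (2 / δ)
      rw [div_le_iff₀ hδ] at h5
      linarith
    calc (Fintype.card G : ℝ) = (Fintype.card G : ℝ) ^ (1 : ℝ) := (Real.rpow_one _).symm
      _ ≤ _ := Real.rpow_le_rpow_of_exponent_le hn1 h4

end MP0775d3.Ev
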