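import Pool.Agent.Lib.MP_0775d3_lc.Ev.Up
import Pool.Agent.Lib.MP_0775d3_lc.Ev.FacT
import Pool.Agent.Lib.MP_0775d3_lc.Ox.FacF

/-! Project EV: the theorem. -/

set_option linter.unusedSectionVars false
set_option linter.unusedVariables false

namespace MP0775d3.Ev

open Matrix MP0775d3.Ox MP0775d3.Kron MP0775d3.Sl2

/-- PROOF. `fac_tc (δ / 8)`, `ev_tc`, `Fac.mono`. -/
theorem ev_fac (δ : ℝ) (hδ : 0 < δ) : ∃ γ : ℝ, 0 < γ ∧ ∃ n₀ : ℕ,
    ∀ (G : Type) [Group G] [Fintype G], n₀ ≤ Fintype.card G →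
      Fac ((Fintype.card G : ℝ) ^ γ) G → ∀ L m : ℝ, 1 ≤ L → HighMass G L m →
      ∀ f : G → ℂ,
        Dec (groupMat f) (m + (Fintype.card G : ℝ) ^ (1 - γ)) (L * (Fintype.card G : ℝ) ^ δ) := by
  classical
  obtain ⟨l, n₁, h1⟩ := fac_tc (δ / 8) (by positivity)
  obtain ⟨γ₀, hγ₀, n₂, h2⟩ := ev_tc δ hδ l
  refine ⟨min γ₀ (δ / 16), lt_min hγ₀ (by positivity), max (max n₁ n₂) 1, ?_⟩
  intro G _ _ hn hF L m hL hm f
  have hn1 : (1 : ℝ) ≤ Fintype.card G := by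
    exact_mod_cast (le_max_right _ _).trans hn
  have hn2 : max n₁ n₂ ≤ Fintype.card G := (le_max_left _ _).trans hn
  have h3 : Fac ((Fintype.card G : ℝ) ^ (δ / 8 / 2)) G := by
    refine hF.mono (Real.rpow_le_rpow_of_exponent_le hn1 ?_)
    refine (min_le_right _ _).trans (le_of_eq ?_)
    ring
  have h4 := h1 G ((le_max_left _ _).trans hn2) h3
  refine (h2 G ((le_max_right _ _).trans hn2) h4 L m hL hm f).mono ?_ le_rfl
  have h5 : (Fintype.card G : ℝ) ^ (1 - γ₀) ≤ (Fintype.card G : ℝ) ^ (1 - min γ₀ (δ / 16)) :=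
    Real.rpow_le_rpow_of_exponent_le hn1 (by linarith [min_le_left γ₀ (δ / 16)])
  linarith

end MP0775d3.Ev
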