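import Pool.Agent.Lib.MP_0775d3_lc.Ev.Up
import Pool.Agent.Lib.MP_0775d3_lc.Ev.Ch

/-! Project EV: the theorem for groups with a chain of subgroups of any length. -/

set_option linter.unusedSectionVars false
set_option linter.unusedVariables false

namespace MP0775d3.Ev

open Matrix MP0775d3.Ox MP0775d3.Kron MP0775d3.Sl2

/-- PROOF. `ch_tc` with `k = ⌈16 / δ⌉₊`, `b = |G| ^ (δ / 16)`; `ev_tc`. -/
theorem ev_ch (δ : ℝ) (hδ : 0 < δ) : ∃ γ : ℝ, 0 < γ ∧ ∃ n₀ : ℕ,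
    ∀ (G : Type) [Group G] [Fintype G], n₀ ≤ Fintype.card G →
      Ch ((Fintype.card G : ℝ) ^ γ) G → ∀ L m : ℝ, 1 ≤ L → HighMass G L m →
      ∀ f : G → ℂ,
        Dec (groupMat f) (m + (Fintype.card G : ℝ) ^ (1 - γ)) (L * (Fintype.card G : ℝ) ^ δ) := by
  classical
  obtain ⟨γ₀, hγ₀, n₂, h2⟩ := ev_tc δ hδ (2 * ⌈16 / δ⌉₊)
  refine ⟨min γ₀ (δ / 16), lt_min hγ₀ (by positivity), max n₂ 1, ?_⟩
  intro G _ _ hn hF L m hL hm f
  have hn1 : (1 : ℝ) ≤ Fintype.card G := by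
    exact_mod_cast (le_max_right _ _).trans hn
  have hn0 : (0 : ℝ) < Fintype.card G := by linarith
  have h3 : Ch ((Fintype.card G : ℝ) ^ (δ / 16)) G :=
    hF.mono (Real.rpow_le_rpow_of_exponent_le hn1 (min_le_right _ _))
  have h4 := ch_tc (Real.one_le_rpow hn1 (by positivity)) ⌈16 / δ⌉₊ G h3 G (MonoidHom.id G)
    Function.injective_id ?_ ?_
  · have e : ((Fintype.card G : ℝ) ^ (δ / 16)) ^ 2 = (Fintype.card G : ℝ) ^ (δ / 8) := by
      rw [← Real.rpow_natCast, ← Real.rpow_mul hn0.le]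
      congr 1
      push_cast
      ring
    rw [e] at h4
    refine (h2 G ((le_max_left _ _).trans hn) h4 L m hL hm f).mono ?_ le_rfl
    have h5 : (Fintype.card G : ℝ) ^ (1 - γ₀) ≤ (Fintype.card G : ℝ) ^ (1 - min γ₀ (δ / 16)) :=
      Real.rpow_le_rpow_of_exponent_le hn1 (by linarith [min_le_left γ₀ (δ / 16)])
    linarith
  · have h3 : (MonoidHom.id G).range = ⊤ := MonoidHom.range_eq_top.2 Function.surjective_id
    rw [h3, Subgroup.index_top, Nat.cast_one]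
    exact Real.one_le_rpow hn1 (by positivity)
  · rw [Nat.card_eq_fintype_card, ← Real.rpow_natCast, ← Real.rpow_mul hn0.le]
    have h4 : (1 : ℝ) ≤ δ / 16 * (⌈16 / δ⌉₊ : ℕ) := by
      have h5 := Nat.le_ceil (16 / δ)
      rw [div_le_iff₀ hδ] at h5
      linarith
    calc (Fintype.card G : ℝ) = (Fintype.card G : ℝ) ^ (1 : ℝ) := (Real.rpow_one _).symm
      _ ≤ _ := Real.rpow_le_rpow_of_exponent_le hn1 h4

end MP0775d3.Ev
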