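import Pool.Agent.Lib.MP_0775d3_lc.Cf.CalcD

/-! Project EV: box circuits with boxes `n ^ x`, uniformly in the exponent `x`. -/

set_option linter.unusedSectionVars false
set_option linter.unusedVariables false

namespace MP0775d3.Ev

open Matrix MP0775d3.Cf MP0775d3.Kron

/-- `bx_dec` for finitely many exponents. -/
theorem net (η : ℝ) (hη : 0 < η) (t : ℕ) (J : ℕ) : ∃ γ : ℝ, 0 < γ ∧ ∃ n₀ : ℕ, ∀ j ≤ J,
    ∀ (X : Type) [Fintype X] [DecidableEq X], n₀ ≤ Fintype.card X → ∀ A : Matrix X X ℂ,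
      Bx ((Fintype.card X : ℝ) ^ (1 + γ)) ((Fintype.card X : ℝ) ^ ((j + 1) * η)) t A →
      Dec A ((Fintype.card X : ℝ) ^ (1 - γ)) ((Fintype.card X : ℝ) ^ ((j + 2) * η)) := by
  have one : ∀ j : ℕ, ∃ γ : ℝ, 0 < γ ∧ ∃ n₀ : ℕ,
      ∀ (X : Type) [Fintype X] [DecidableEq X], n₀ ≤ Fintype.card X → ∀ A : Matrix X X ℂ,
        Bx ((Fintype.card X : ℝ) ^ (1 + γ)) ((Fintype.card X : ℝ) ^ ((j + 1) * η)) t A →
        Dec A ((Fintype.card X : ℝ) ^ (1 - γ)) ((Fintype.card X : ℝ) ^ ((j + 2) * η)) := by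
    intro j
    obtain ⟨γ, hγ, n₀, h⟩ := bx_dec ((j + 1) * η) η (by positivity) hη t
    refine ⟨γ, hγ, n₀, fun X _ _ hX A hA => ?_⟩
    have h1 := h X hX A hA
    have e : ((j : ℝ) + 1) * η + η = ((j : ℝ) + 2) * η := by ring
    rwa [e] at h1
  have key : ∀ (γ γ' : ℝ), γ' ≤ γ → ∀ (j : ℕ) (X : Type) [Fintype X] [DecidableEq X],
      1 ≤ Fintype.card X → ∀ A : Matrix X X ℂ,
      (Bx ((Fintype.card X : ℝ) ^ (1 + γ)) ((Fintype.card X : ℝ) ^ ((j + 1) * η)) t A →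
        Dec A ((Fintype.card X : ℝ) ^ (1 - γ)) ((Fintype.card X : ℝ) ^ ((j + 2) * η))) →
      Bx ((Fintype.card X : ℝ) ^ (1 + γ')) ((Fintype.card X : ℝ) ^ ((j + 1) * η)) t A →
        Dec A ((Fintype.card X : ℝ) ^ (1 - γ')) ((Fintype.card X : ℝ) ^ ((j + 2) * η)) := by
    intro γ γ' hγ j X _ _ hX A h hB
    have hX1 : (1 : ℝ) ≤ Fintype.card X := by exact_mod_cast hX
    refine (h (hB.mono ?_ le_rfl le_rfl ?_)).mono ?_ le_rfl
    · exact Real.rpow_le_rpow_of_exponent_le hX1 (by linarith)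
    · exact Real.one_le_rpow hX1 (by positivity)
    · exact Real.rpow_le_rpow_of_exponent_le hX1 (by linarith)
  induction J with
  | zero =>
    obtain ⟨γ, hγ, n₀, h⟩ := one 0
    refine ⟨γ, hγ, n₀, fun j hj => ?_⟩
    obtain rfl : j = 0 := Nat.le_zero.1 hj
    exact h
  | succ J ih =>
    obtain ⟨γ, hγ, n₀, h⟩ := ih
    obtain ⟨γ', hγ', n₀', h'⟩ := one (J + 1)
    refine ⟨min γ γ', lt_min hγ hγ', max (max n₀ n₀') 1, fun j hj X _ _ hX A hA => ?_⟩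
    have h1 : 1 ≤ Fintype.card X := (le_max_right _ _).trans hX
    have h2 : max n₀ n₀' ≤ Fintype.card X := (le_max_left _ _).trans hX
    rcases Nat.le_succ_iff.1 hj with hj' | rfl
    · exact key γ _ (min_le_left _ _) j X h1 A (h j hj' X ((le_max_left _ _).trans h2) A) hA
    · exact key γ' _ (min_le_right _ _) (J + 1) X h1 A (h' X ((le_max_right _ _).trans h2) A) hA

end MP0775d3.Ev
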