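import Pool.Agent.Lib.MP_0775d3_lc.Ev.Deg
import Pool.Agent.Lib.MP_0775d3_lc.Ev.Net
import Pool.Agent.Lib.MP_0775d3_lc.Ox.LSplit

/-! Project EV: group matrices, from the low part of the Fourier transform. -/

set_option linter.unusedSectionVars false
set_option linter.unusedVariables false

namespace MP0775d3.Ev

open Matrix MP0775d3.Cf MP0775d3.Ox MP0775d3.Kron MP0775d3.Sl2

private theorem evUp_pow (C : ℝ) {a : ℝ} (ha : 0 < a) :
    ∃ n₀ : ℕ, ∀ n : ℕ, n₀ ≤ n → C ≤ (n : ℝ) ^ a := by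
  have h1 : Filter.Tendsto (fun n : ℕ => (n : ℝ) ^ a) Filter.atTop Filter.atTop :=
    (tendsto_rpow_atTop ha).comp tendsto_natCast_atTop_atTop
  exact Filter.eventually_atTop.1 (Filter.tendsto_atTop.1 h1 C)

/-- The exponent of a number between `1` and `n`, up to `η`. -/
private theorem evUp_exp {n L η : ℝ} (hn : 1 < n) (hL : 1 ≤ L) (hLn : L ≤ n) (hη : 0 < η) :
    ∃ j : ℕ, j ≤ ⌈1 / η⌉₊ ∧ L ≤ n ^ (j * η) ∧ n ^ (j * η) ≤ L * n ^ η := by
  have hn0 : 0 < n := by linarith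
  have hlog : 0 < Real.log n := Real.log_pos hn
  have hL0 : 0 < L := by linarith
  obtain ⟨y, hy⟩ : ∃ y, y = Real.log L / Real.log n := ⟨_, rfl⟩
  have hy0 : 0 ≤ y := by
    rw [hy]
    exact div_nonneg (Real.log_nonneg hL) hlog.le
  have hy1 : y ≤ 1 := by
    rw [hy, div_le_one hlog]
    exact Real.log_le_log hL0 hLn
  have hLy : L = n ^ y := by
    rw [Real.rpow_def_of_pos hn0, hy, mul_div_cancel₀ _ hlog.ne', Real.exp_log hL0]
  have h1 : y ≤ ⌈y / η⌉₊ * η := by
    have h2 := Nat.le_ceil (y / η)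
    rwa [div_le_iff₀ hη] at h2
  have h3 : (⌈y / η⌉₊ : ℝ) * η ≤ y + η := by
    have h4 := (Nat.ceil_lt_add_one (div_nonneg hy0 hη.le)).le
    calc (⌈y / η⌉₊ : ℝ) * η ≤ (y / η + 1) * η := mul_le_mul_of_nonneg_right h4 hη.le
      _ = y + η := by
        field_simp
  refine ⟨⌈y / η⌉₊, Nat.ceil_le_ceil (div_le_div_of_nonneg_right hy1 hη.le), ?_, ?_⟩
  · rw [hLy]
    exact Real.rpow_le_rpow_of_exponent_le hn.le h1
  · rw [hLy, ← Real.rpow_add hn0]
    exact Real.rpow_le_rpow_of_exponent_le hn.le h3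

/-- Group matrices of the groups with a Fourier transform that is a box circuit in the rows of the
representations of dimension at most `L`. PROOF. `fl_split`, `net`. -/
theorem ev_of_fl (δ : ℝ) (hδ : 0 < δ) (t : ℕ) (ht : 1 ≤ t) (C : ℝ) (hC : 1 ≤ C) :
    ∃ γ : ℝ, 0 < γ ∧ ∃ n₀ : ℕ, ∀ (G : Type) [Group G] [Fintype G], n₀ ≤ Fintype.card G →
      ∀ L m : ℝ, 1 ≤ L →
      FL (C * (Fintype.card G : ℝ)) (C * (L * (Fintype.card G : ℝ) ^ (δ / 8))) t L G →
      HighMass G L m → ∀ f : G → ℂ,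
        Dec (groupMat f) (m + (Fintype.card G : ℝ) ^ (1 - γ)) (L * (Fintype.card G : ℝ) ^ δ) := by
  classical
  obtain ⟨η, hη⟩ : ∃ η, η = δ / 8 := ⟨_, rfl⟩
  have hη0 : 0 < η := by rw [hη]; positivity
  obtain ⟨γ, hγ, n₁, hnet⟩ := net η hη0 (t + 1 + 1 + t + 1) (⌈1 / η⌉₊ + 1)
  obtain ⟨n₂, hn₂⟩ := evUp_pow C hη0
  obtain ⟨n₃, hn₃⟩ := evUp_pow C hγ
  refine ⟨γ, hγ, n₁ + n₂ + n₃ + 2, ?_⟩
  intro G _ _ hn L m hL hT hm f
  rw [← hη] at hT
  have hm0 : 0 ≤ m := hm.nonneg
  obtain ⟨n, hnn⟩ : ∃ n : ℝ, n = (Fintype.card G : ℝ) := ⟨_, rfl⟩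
  have hn1 : 1 < n := by
    rw [hnn]
    exact_mod_cast (show 1 < Fintype.card G by omega)
  have hn0 : 0 < n := by linarith
  have hnc : (Nat.card G : ℝ) = n := by rw [hnn, Nat.card_eq_fintype_card]
  have hCη : C ≤ n ^ η := by
    rw [hnn]
    exact hn₂ _ (by omega)
  have hCγ : C ≤ n ^ γ := by
    rw [hnn]
    exact hn₃ _ (by omega)
  rw [← hnn] at hT ⊢
  rcases le_or_gt n (L * n ^ δ) with hbig | hsmall
  · refine ⟨0, groupMat f, (zero_add _).symm, ?_, ?_⟩
    · rw [Matrix.rank_zero]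
      have : 0 ≤ n ^ (1 - γ) := Real.rpow_nonneg hn0.le _
      push_cast
      linarith
    · have h1 : ∀ s : Set G, ((s.ncard : ℕ) : ℝ) ≤ L * n ^ δ := by
        intro s
        refine le_trans ?_ hbig
        rw [hnn, ← Nat.card_eq_fintype_card]
        exact_mod_cast Set.ncard_le_card s
      exact ⟨fun x => h1 _, fun y => h1 _⟩
  · have hnδ : 1 ≤ n ^ δ := Real.one_le_rpow hn1.le hδ.le
    have hLn : L ≤ n := (le_mul_of_one_le_right (by linarith) hnδ).trans hsmall.le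
    obtain ⟨j, hj1, hj2, hj3⟩ := evUp_exp hn1 hL hLn hη0
    obtain ⟨S, F, hB, hF⟩ := hT
    have hnη : 1 ≤ n ^ η := Real.one_le_rpow hn1.le hη0.le
    have hLη : L ≤ L * n ^ η := le_mul_of_one_le_right (by linarith) hnη
    have hLs : L ≤ C * (L * n ^ η) := hLη.trans (le_mul_of_one_le_left (by linarith) hC)
    have hCn : n ≤ C * n := le_mul_of_one_le_left hn0.le hC
    obtain ⟨R, Q, h1, h2, h3⟩ := fl_split ht (hL.trans hLs) hLs (hnn ▸ hCn) S F hB hF f
    have hs : C * (L * n ^ η) ≤ n ^ (((j + 1 : ℕ) + 1) * η) := by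
      calc C * (L * n ^ η) ≤ n ^ η * (n ^ (j * η) * n ^ η) :=
            mul_le_mul hCη (mul_le_mul_of_nonneg_right hj2 (by linarith)) (by positivity)
              (by linarith)
        _ = n ^ (((j + 1 : ℕ) + 1) * η) := by
            rw [← Real.rpow_add hn0, ← Real.rpow_add hn0]
            congr 1
            push_cast
            ring
    have hw : C * n ≤ n ^ (1 + γ) := by
      rw [Real.rpow_add hn0, Real.rpow_one, mul_comm n]
      exact mul_le_mul_of_nonneg_right hCγ hn0.le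
    have h4 : Bx (n ^ (1 + γ)) (n ^ (((j + 1 : ℕ) + 1) * η)) (t + 1 + 1 + t + 1) Q :=
      h3.mono hw hs le_rfl (Real.one_le_rpow hn1.le (by positivity))
    rw [hnn] at h4
    obtain ⟨R', E, h5, h6, h7⟩ := hnet (j + 1) (by omega) G (by omega) Q h4
    rw [← hnn] at h6 h7
    refine ⟨R + R', E, ?_, ?_, h7.mono ?_⟩
    · have h8 : groupMat f = R + Q := h1
      rw [h8, h5, add_assoc]
    · have h8 : ((R + R').rank : ℝ) ≤ R.rank + R'.rank := by exact_mod_cast rank_add_le R R'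
      have h9 := h2.trans (hm.sys (by linarith) S)
      linarith
    · calc n ^ (((j + 1 : ℕ) + 2) * η) = n ^ (j * η) * n ^ (3 * η) := by
            rw [← Real.rpow_add hn0]
            congr 1
            push_cast
            ring
        _ ≤ L * n ^ η * n ^ (3 * η) := mul_le_mul_of_nonneg_right hj3 (by positivity)
        _ = L * n ^ (4 * η) := by
            rw [mul_assoc, ← Real.rpow_add hn0]
            congr 2
            ring
        _ ≤ L * n ^ δ := by
            refine mul_le_mul_of_nonneg_left ?_ (by linarith)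
            refine Real.rpow_le_rpow_of_exponent_le hn1.le ?_
            rw [hη]
            linarith

end MP0775d3.Ev
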