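import Pool.Agent.Lib.MP_0775d3_lc.Ev.Real
import Pool.Agent.Lib.MP_0775d3_lc.Zf.Coarse

/-! Project EV: the class `Zf.PCh`. -/

set_option linter.unusedSectionVars false
set_option linter.unusedVariables false

namespace MP0775d3.Ev

open Matrix MP0775d3.Ox MP0775d3.Kron MP0775d3.Sl2 MP0775d3.Zf

/-- The two forms of the class are the same. -/
theorem ch_of_pch {b : ℝ} (k : ℕ) : ∀ (G : Type) [Group G], PCh b k G → Ch b G := by
  induction k with
  | zero =>
    intro G _ h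
    exact Ch.one G h
  | succ k ih =>
    rintro G _ ⟨H, h1, h2⟩
    exact Ch.step G H h1 (ih H h2)

theorem Ch.pch {b : ℝ} {G : Type} [Group G] (h : Ch b G) : ∃ k, PCh b k G := by
  induction h with
  | one G hs => exact ⟨0, hs⟩
  | step G H h1 _ ih =>
    obtain ⟨k, hk⟩ := ih
    exact ⟨k + 1, H, h1, hk⟩

/-- Solvable groups. -/
theorem pch_solvable (b : ℝ) (G : Type) [Group G] [Finite G] [Group.IsSolvable G] :
    ∃ k, PCh b k G := (ch_solvable b G).pch

/-- Groups of permutations of at most `b` points: all groups of order at most `b`, `S_m` and `A_m` for `m ≤ b`, and all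
subgroups of `GL_m(F)` for finite fields with `|F| ^ m ≤ b`. -/
theorem pch_perm {b : ℝ} {X : Type} [Finite X] (hX : (Nat.card X : ℝ) ≤ b) {G : Type} [Group G]
    (φ : G →* Equiv.Perm X) (hφ : Function.Injective φ) : ∃ k, PCh b k G :=
  (ch_perm hX φ hφ).pch

/-- Every function. -/
theorem all_f (δ : ℝ) (hδ : 0 < δ) : ∃ γ : ℝ, 0 < γ ∧ ∃ n₀ : ℕ,
    ∀ (G : Type) [Group G] [Fintype G], n₀ ≤ Fintype.card G →
      ∀ k : ℕ, PCh ((Fintype.card G : ℝ) ^ γ) k G → ∀ L m : ℝ, 1 ≤ L → HighMass G L m →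
      ∀ (F : Type) [RCLike F] (f : G → F),
        Dec (groupMat f) (2 * m + (Fintype.card G : ℝ) ^ (1 - γ))
          (L * (Fintype.card G : ℝ) ^ δ) := by
  obtain ⟨γ, hγ, n₀, h⟩ := ev_main δ hδ
  exact ⟨γ, hγ, n₀, fun G _ _ hn k hG => h G hn (ch_of_pch k G hG).hasChain⟩

end MP0775d3.Ev
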