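import Pool.Agent.Lib.MP_0775d3_lc.Ev.Main
import Pool.Agent.Lib.MP_0775d3_lc.Sl2.Real

/-! Project EV: real and complex functions. -/

set_option linter.unusedSectionVars false
set_option linter.unusedVariables false

namespace MP0775d3.Ev

open Matrix MP0775d3.Ox MP0775d3.Kron MP0775d3.Sl2

/-- From `ℂ` to `ℝ` and `ℂ`. -/
theorem real_up {γ : ℝ} (hγ : 0 < γ) : ∃ n₁ : ℕ, ∀ (G : Type) [Group G] [Fintype G],
    n₁ ≤ Fintype.card G → ∀ m s : ℝ, 0 ≤ m →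
    (∀ f : G → ℂ, Dec (groupMat f) (m + (Fintype.card G : ℝ) ^ (1 - γ)) s) →
    ∀ (F : Type) [RCLike F] (f : G → F),
      Dec (groupMat f) (2 * m + (Fintype.card G : ℝ) ^ (1 - γ / 2)) s := by
  classical
  have h1 : Filter.Tendsto (fun n : ℕ => (n : ℝ) ^ (γ / 2)) Filter.atTop Filter.atTop :=
    (tendsto_rpow_atTop (by positivity)).comp tendsto_natCast_atTop_atTop
  obtain ⟨n₀, hn₀⟩ := Filter.eventually_atTop.1 (Filter.tendsto_atTop.1 h1 2)
  refine ⟨max n₀ 1, ?_⟩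
  intro G _ _ hn m s hm h F _ f
  have hn1 : (1 : ℝ) ≤ Fintype.card G := by
    exact_mod_cast (le_max_right _ _).trans hn
  have hn0 : (0 : ℝ) < Fintype.card G := by linarith
  have h2 := hn₀ _ ((le_max_left _ _).trans hn)
  have h3 := h fun g => ((RCLike.re (f g) : ℝ) : ℂ) + ((RCLike.im (f g) : ℝ) : ℂ) * Complex.I
  have h4 : Dec ((groupMat f).map fun z =>
      ((RCLike.re z : ℝ) : ℂ) + ((RCLike.im z : ℝ) : ℂ) * Complex.I)
      (m + (Fintype.card G : ℝ) ^ (1 - γ)) s := h3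
  refine (dec_rclike _ (add_nonneg hm (Real.rpow_nonneg hn0.le _)) h4).mono ?_ le_rfl
  have h5 : (Fintype.card G : ℝ) ^ (1 - γ / 2) =
      (Fintype.card G : ℝ) ^ (γ / 2) * (Fintype.card G : ℝ) ^ (1 - γ) := by
    rw [← Real.rpow_add hn0]
    congr 1
    ring
  have h6 : 2 * (Fintype.card G : ℝ) ^ (1 - γ) ≤
      (Fintype.card G : ℝ) ^ (γ / 2) * (Fintype.card G : ℝ) ^ (1 - γ) :=
    mul_le_mul_of_nonneg_right h2 (Real.rpow_nonneg hn0.le _)
  rw [h5]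
  linarith

/-- The theorem. -/
theorem ev_main (δ : ℝ) (hδ : 0 < δ) : ∃ γ : ℝ, 0 < γ ∧ ∃ n₀ : ℕ,
    ∀ (G : Type) [Group G] [Fintype G], n₀ ≤ Fintype.card G →
      HasChain ((Fintype.card G : ℝ) ^ γ) G → ∀ L m : ℝ, 1 ≤ L → HighMass G L m →
      ∀ (F : Type) [RCLike F] (f : G → F),
        Dec (groupMat f) (2 * m + (Fintype.card G : ℝ) ^ (1 - γ))
          (L * (Fintype.card G : ℝ) ^ δ) := by
  obtain ⟨γ, hγ, n₀, h⟩ := ev_ch δ hδ
  obtain ⟨n₁, h1⟩ := real_up hγ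
  refine ⟨γ / 2, by positivity, max (max n₀ n₁) 1, ?_⟩
  intro G _ _ hn hG L m hL hm F _ f
  have hn1 : (1 : ℝ) ≤ Fintype.card G := by
    exact_mod_cast (le_max_right _ _).trans hn
  have hn2 : max n₀ n₁ ≤ Fintype.card G := (le_max_left _ _).trans hn
  refine h1 G ((le_max_right _ _).trans hn2) m _ hm.nonneg ?_ F f
  exact h G ((le_max_left _ _).trans hn2)
    (hG.ch.mono (Real.rpow_le_rpow_of_exponent_le hn1 (by linarith))) L m hL hm

end MP0775d3.Ev
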