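import Pool.Agent.Lib.MP_0775d3_lc.Ev.Core
import Pool.Agent.Lib.MP_0775d3_lc.Ev.OfFl

/-! Project EV: group matrices of the groups with a chain of subgroups. -/

set_option linter.unusedSectionVars false
set_option linter.unusedVariables false

namespace MP0775d3.Ev

open Matrix MP0775d3.Cf MP0775d3.Ox MP0775d3.Kron MP0775d3.Sl2

/-- PROOF. `ev_fl`, `ev_of_fl`. -/
theorem ev_tc (δ : ℝ) (hδ : 0 < δ) (l : ℕ) : ∃ γ : ℝ, 0 < γ ∧ ∃ n₀ : ℕ,
    ∀ (G : Type) [Group G] [Fintype G], n₀ ≤ Fintype.card G →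
      Tc ((Fintype.card G : ℝ) ^ (δ / 8)) l G → ∀ L m : ℝ, 1 ≤ L → HighMass G L m →
      ∀ f : G → ℂ,
        Dec (groupMat f) (m + (Fintype.card G : ℝ) ^ (1 - γ)) (L * (Fintype.card G : ℝ) ^ δ) := by
  obtain ⟨t, ht, C, hC, hFL⟩ := ev_fl (δ / 8) (by positivity) l
  obtain ⟨γ, hγ, n₀, h⟩ := ev_of_fl δ hδ t ht C hC
  refine ⟨γ, hγ, max n₀ 1, fun G _ _ hn hT L m hL hm f => ?_⟩
  have hn1 : (1 : ℝ) ≤ Fintype.card G := by
    exact_mod_cast (le_max_right _ _).trans hn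
  have h1 := hFL _ hn1 L hL G (by rw [Nat.card_eq_fintype_card]) hT
  rw [Nat.card_eq_fintype_card] at h1
  exact h G ((le_max_left _ _).trans hn) L m hL h1 hm f

/-- The matrices with entries `f (x * y⁻¹)`, `f` arbitrary, of the groups of a class with Fourier transforms that are
box circuits. -/
theorem ev_of_fs {P : ℝ → ∀ (G : Type) [Group G], Prop}
    (hP : ∀ η : ℝ, 0 < η → ∃ t : ℕ, ∃ C : ℝ, 1 ≤ C ∧ ∀ N : ℝ, 1 ≤ N →
      ∀ (G : Type) [Group G] [Finite G], (Nat.card G : ℝ) ≤ N → P (N ^ η) G →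
        FS (C * Nat.card G) (C * N ^ η) t G) (δ : ℝ) (hδ : 0 < δ) :
    ∃ γ : ℝ, 0 < γ ∧ ∃ n₀ : ℕ, ∀ (G : Type) [Group G] [Fintype G], n₀ ≤ Fintype.card G →
      P ((Fintype.card G : ℝ) ^ (δ / 8)) G → ∀ L m : ℝ, 1 ≤ L → HighMass G L m →
      ∀ f : G → ℂ,
        Dec (groupMat f) (m + (Fintype.card G : ℝ) ^ (1 - γ)) (L * (Fintype.card G : ℝ) ^ δ) := by
  obtain ⟨t, C, hC, hFL⟩ := hP (δ / 8) (by positivity)
  obtain ⟨γ, hγ, n₀, h⟩ := ev_of_fl δ hδ (t + 1) (by omega) C hC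
  refine ⟨γ, hγ, max n₀ 1, fun G _ _ hn hT L m hL hm f => ?_⟩
  have hn1 : (1 : ℝ) ≤ Fintype.card G := by
    exact_mod_cast (le_max_right _ _).trans hn
  have hn0 : (0 : ℝ) < Fintype.card G := by linarith
  have hη : (1 : ℝ) ≤ (Fintype.card G : ℝ) ^ (δ / 8) := Real.one_le_rpow hn1 (by positivity)
  have h1 := FS.low L (hFL _ hn1 G (by rw [Nat.card_eq_fintype_card]) hT)
  rw [Nat.card_eq_fintype_card] at h1
  refine h G ((le_max_left _ _).trans hn) L m hL (h1.mono le_rfl ?_ (by omega) ?_) hm f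
  · exact mul_le_mul_of_nonneg_left (le_mul_of_one_le_left (by linarith) hL) (by linarith)
  · have h2 : (1 : ℝ) * 1 ≤ C * (L * (Fintype.card G : ℝ) ^ (δ / 8)) := by
      refine mul_le_mul hC ?_ zero_le_one (by linarith)
      exact hη.trans (le_mul_of_one_le_left (by linarith) hL)
    linarith

end MP0775d3.Ev
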